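import Pool.Agent.Helper4.TL.StD

/-!
# Project TL: solutions of the relations with given leading form
-/

set_option autoImplicit false

namespace Pool.Agent.Helper46.TL

open Pool.Agent.Helper4.TL
open Pool.Agent.Helper14.W5 (e5 tr5 Fn5 Tm opL op5 mulL sclL Gd mmL idL Wd5 Qo dX dY cS M7 nS bb5 S5PlA S5PlU S5Trm S5Low0 S5Nfa S5Exp S5Lw1 S5Bb oA Lw)

private theorem five0 : (5 : ZMod 5) = 0 := by decide

private theorem cast_zero (r s : ℕ) : (((5 ^ (r + s) : ℕ) : ℤ) : ZMod (5 ^ r)) = 0 := by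
  have h := ZMod.natCast_self (5 ^ r)
  push_cast at h ⊢
  rw [pow_add, h, zero_mul]

private theorem cast_zero' (r s : ℕ) : (((5 ^ (r + s) : ℕ) : ℤ) : ZMod (5 ^ s)) = 0 := by
  have h := ZMod.natCast_self (5 ^ s)
  push_cast at h ⊢
  rw [pow_add, h, mul_zero]

/-- The relations as equations between functions. -/
private theorem rel_of_eq {q q' : ℕ} (F : Fin 2 → Fn5 q q')
    (h1 : F 1 - tr5 2 (-1) 1 (-2) (F 1) = 0)
    (h2 : F 0 + tr5 1 1 0 1 (F 0) - F 1 -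
      (tr5 3 (-2) 1 (-3) (F 0) + tr5 3 1 1 2 (F 0) - tr5 3 (-2) 1 (-3) (F 1)) = 0) : RelE F :=
  ⟨fun x y => congrFun (congrFun h1 x) y, fun x y => congrFun (congrFun h2 x) y⟩

private theorem pow_T (ht : S5Trm) (r s : ℕ) (n : ℕ) :
    (op5 1 1 0 1 : Module.End (ZMod 5) (Fn5 (5 ^ r) (5 ^ s))) ^ n = op5 1 (n : ℤ) 0 1 := by
  induction n with
  | zero =>
    refine LinearMap.ext fun F => ?_
    obtain ⟨-, m2, -⟩ := ht (ZMod 5) r s F
    rw [pow_zero, Module.End.one_apply]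
    exact m2.symm
  | succ n ih =>
    refine LinearMap.ext fun F => ?_
    obtain ⟨m1, -, -⟩ := ht (ZMod 5) r s F
    rw [pow_succ, ih, Module.End.mul_apply]
    have e := m1 1 (n : ℤ) 0 1 1 1 0 1 (by decide) (by decide) (by decide) (by decide)
    change tr5 1 (n : ℤ) 0 1 (tr5 1 1 0 1 F) = tr5 1 ((n + 1 : ℕ) : ℤ) 0 1 F
    rw [e]
    congr 1
    push_cast
    ring

private theorem pow_T_one (ht : S5Trm) (r s : ℕ) :
    (op5 1 1 0 1 : Module.End (ZMod 5) (Fn5 (5 ^ r) (5 ^ s))) ^ (5 ^ (r + s)) = 1 := by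
  rw [pow_T ht]
  refine LinearMap.ext fun F => ?_
  obtain ⟨-, m2, -⟩ := ht (ZMod 5) r s F
  rw [Module.End.one_apply]
  change tr5 1 ((5 ^ (r + s) : ℕ) : ℤ) 0 1 F = F
  have h : tr5 1 ((5 ^ (r + s) : ℕ) : ℤ) 0 1 F = tr5 1 0 0 1 F := by
    funext x y
    simp only [tr5]
    rw [cast_zero r s, cast_zero' r s, Int.cast_zero, Int.cast_zero]
  rw [h, m2]

theorem hLed (ht : S5Trm) (hl : S5Low0) (hn : S5Nfa) (hw : S5Lw1) (hb : S5Bb) : TLed := by
  intro r s al be hal hbe hev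
  obtain ⟨b1, -⟩ := hb r s
  obtain ⟨-, -, -, -, -, -, nA, -⟩ := hn r s
  obtain ⟨l0, -, leven, -⟩ := hw r s
  have hU : ∀ F : Fn5 (5 ^ r) (5 ^ s), op5 2 (-1) 1 (-2) (op5 2 (-1) 1 (-2) F) = F := by
    intro F
    obtain ⟨m1, m2, m3⟩ := ht (ZMod 5) r s F
    have e1 := m1 2 (-1) 1 (-2) 2 (-1) 1 (-2) (by decide) (by decide) (by decide) (by decide)
    have e2 := m3 (-1) 1 0 0 1 (by decide) (by decide) (by decide)
    norm_num at e1 e2
    change tr5 2 (-1) 1 (-2) (tr5 2 (-1) 1 (-2) F) = F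
    rw [e1, e2, m2]
  have hV : ∀ F : Fn5 (5 ^ r) (5 ^ s), op5 3 (-2) 1 (-3) (op5 3 (-2) 1 (-3) F) = F := by
    intro F
    obtain ⟨m1, m2, m3⟩ := ht (ZMod 5) r s F
    have e1 := m1 3 (-2) 1 (-3) 3 (-2) 1 (-3) (by decide) (by decide) (by decide) (by decide)
    have e2 := m3 (-1) 1 0 0 1 (by decide) (by decide) (by decide)
    norm_num at e1 e2
    change tr5 3 (-2) 1 (-3) (tr5 3 (-2) 1 (-3) F) = F
    rw [e1, e2, m2]
  have hVT : ∀ F : Fn5 (5 ^ r) (5 ^ s), op5 3 (-2) 1 (-3) (op5 1 1 0 1 F) = op5 3 1 1 2 F := by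
    intro F
    obtain ⟨m1, -, -⟩ := ht (ZMod 5) r s F
    have e1 := m1 3 (-2) 1 (-3) 1 1 0 1 (by decide) (by decide) (by decide) (by decide)
    norm_num at e1
    change tr5 3 (-2) 1 (-3) (tr5 1 1 0 1 F) = tr5 3 1 1 2 F
    exact e1
  obtain ⟨d, hd⟩ : ∃ d : ℤ, d = (al : ℤ) + be := ⟨_, rfl⟩
  have hdev : Even d := by
    obtain ⟨m, hm⟩ := hev
    exact ⟨(m : ℤ), by rw [hd]; exact_mod_cast hm⟩
  obtain ⟨m, hm⟩ : ∃ m : Fn5 (5 ^ r) (5 ^ s), m = bb5 al be := ⟨_, rfl⟩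
  have hmW : m ∈ Wd5 d := by
    rw [hm, hd]
    exact b1 al be hal hbe
  rw [← hd, ← hm]
  obtain ⟨hUm, hVm⟩ := leven d m hmW hdev
  obtain ⟨U1, hU1⟩ : ∃ U1 : Fn5 (5 ^ r) (5 ^ s), U1 = op5 2 (-1) 1 (-2) m := ⟨_, rfl⟩
  obtain ⟨V1, hV1⟩ : ∃ V1 : Fn5 (5 ^ r) (5 ^ s), V1 = op5 3 (-2) 1 (-3) m := ⟨_, rfl⟩
  rw [← hU1] at hUm
  rw [← hV1] at hVm
  obtain ⟨F1, hF1⟩ : ∃ F1 : Fn5 (5 ^ r) (5 ^ s), F1 = (3 : ZMod 5) • (m + U1) := ⟨_, rfl⟩
  obtain ⟨k, hk⟩ : ∃ k : Fn5 (5 ^ r) (5 ^ s), k = (3 : ZMod 5) • (m + V1) := ⟨_, rfl⟩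
  have hUF : op5 2 (-1) 1 (-2) F1 = F1 := by
    rw [hF1, map_smul, map_add, ← hU1, hU1, hU, ← hU1, add_comm]
  have hVk : op5 3 (-2) 1 (-3) k = k := by
    rw [hk, map_smul, map_add, ← hV1, hV1, hV, ← hV1, add_comm]
  have hFm : F1 - m = (3 : ZMod 5) • (U1 - m) := by
    rw [hF1]
    funext x y
    simp only [Pi.sub_apply, Pi.add_apply, Pi.smul_apply, smul_eq_mul]
    linear_combination (m x y) * five0
  have hkm : k - m = (3 : ZMod 5) • (V1 - m) := by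
    rw [hk]
    funext x y
    simp only [Pi.sub_apply, Pi.add_apply, Pi.smul_apply, smul_eq_mul]
    linear_combination (m x y) * five0
  have hFmW : F1 - m ∈ Wd5 (d - 1) := by
    rw [hFm]
    exact Submodule.smul_mem _ _ hUm
  have hkmW : k - m ∈ Wd5 (d - 1) := by
    rw [hkm]
    exact Submodule.smul_mem _ _ hVm
  have hF1W : F1 ∈ Wd5 d := by
    have h := l0 2 (-1) 1 (-2) (by decide) (by decide) _ _ hmW
    rw [sub_zero, ← hU1] at h
    rw [hF1]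
    exact Submodule.smul_mem _ _ (Submodule.add_mem _ hmW h)
  have hkW : k ∈ Wd5 d := by
    have h := l0 3 (-2) 1 (-3) (by decide) (by decide) _ _ hmW
    rw [sub_zero, ← hV1] at h
    rw [hk]
    exact Submodule.smul_mem _ _ (Submodule.add_mem _ hmW h)
  obtain ⟨T, hT⟩ : ∃ T : Module.End (ZMod 5) (Fn5 (5 ^ r) (5 ^ s)), T = op5 1 1 0 1 := ⟨_, rfl⟩
  obtain ⟨G, hG⟩ : ∃ G : Module.End (ZMod 5) (Fn5 (5 ^ r) (5 ^ s)),
      G = ∑ i ∈ Finset.range (5 ^ (r + s)), (-T) ^ i := ⟨_, rfl⟩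
  have hTG : (T + 1) * G = (1 + 1 : Module.End (ZMod 5) (Fn5 (5 ^ r) (5 ^ s))) := by
    have hodd : Odd (5 ^ (r + s)) := Odd.pow (by decide)
    have hT1 : T ^ (5 ^ (r + s)) = 1 := by
      rw [hT]
      exact pow_T_one ht r s
    have h3 : (-T) ^ (5 ^ (r + s)) = -(T ^ (5 ^ (r + s))) := Odd.neg_pow hodd T
    have h1 : (-T - 1) * G = (-T) ^ (5 ^ (r + s)) - 1 := by
      rw [hG]
      exact mul_geom_sum (-T) (5 ^ (r + s))
    rw [h3, hT1] at h1
    refine LinearMap.ext fun W => ?_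
    have h4 : ((-T - 1) * G) W = (-1 - 1 : Module.End (ZMod 5) (Fn5 (5 ^ r) (5 ^ s))) W := by rw [h1]
    rw [Module.End.mul_apply, LinearMap.sub_apply, LinearMap.neg_apply, Module.End.one_apply,
      LinearMap.sub_apply, LinearMap.neg_apply, Module.End.one_apply] at h4
    rw [Module.End.mul_apply, LinearMap.add_apply, Module.End.one_apply, LinearMap.add_apply,
      Module.End.one_apply]
    have h5 : T (G W) + G W = -(-(T (G W)) - G W) := by abel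
    rw [h5, h4]
    abel
  obtain ⟨F0, hF0⟩ : ∃ F0 : Fn5 (5 ^ r) (5 ^ s), F0 = (3 : ZMod 5) • G (F1 + k) := ⟨_, rfl⟩
  have hsum : F0 + T F0 = F1 + k := by
    have h1 : F0 + T F0 = (3 : ZMod 5) • (((T + 1) * G) (F1 + k)) := by
      rw [hF0, map_smul, Module.End.mul_apply, LinearMap.add_apply, Module.End.one_apply, smul_add,
        add_comm]
    rw [h1, hTG, LinearMap.add_apply, Module.End.one_apply]
    funext x y
    simp only [Pi.add_apply, Pi.smul_apply, smul_eq_mul]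
    linear_combination (F1 x y + k x y) * five0
  have hpow : ∀ (n : ℕ) (W : Fn5 (5 ^ r) (5 ^ s)), W ∈ Wd5 d → ((-T) ^ n) W ∈ Wd5 d := by
    intro n
    induction n with
    | zero =>
      intro W hW
      rw [pow_zero, Module.End.one_apply]
      exact hW
    | succ n ih =>
      intro W hW
      rw [pow_succ, Module.End.mul_apply]
      apply ih
      have h := l0 1 1 0 1 (by decide) (by decide) _ _ hW
      rw [sub_zero, ← hT] at h
      rw [LinearMap.neg_apply]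
      exact Submodule.neg_mem _ h
  have hF0W : F0 ∈ Wd5 d := by
    rw [hF0]
    refine Submodule.smul_mem _ _ ?_
    rw [hG, LinearMap.sum_apply]
    exact Submodule.sum_mem _ fun i _ => hpow i _ (Submodule.add_mem _ hF1W hkW)
  have hTF : T F0 - F0 ∈ Wd5 (d - 1) := by
    have h := nA _ _ hF0W
    rw [LinearMap.sub_apply, Module.End.one_apply] at h
    rw [hT]
    exact h
  refine ⟨![F0, F1], rel_of_eq _ ?_ ?_, ?_, ?_⟩
  · change F1 - op5 2 (-1) 1 (-2) F1 = 0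
    rw [hUF, sub_self]
  · change F0 + op5 1 1 0 1 F0 - F1 -
      (op5 3 (-2) 1 (-3) F0 + op5 3 1 1 2 F0 - op5 3 (-2) 1 (-3) F1) = 0
    rw [← hVT, ← map_add, ← map_sub, ← hT, hsum, add_sub_cancel_left, hVk, sub_self]
  · change F0 - m ∈ Wd5 (d - 1)
    have h : F0 - m = (3 : ZMod 5) • ((F1 - m) + (k - m) - (T F0 - F0)) := by
      have h1 : (F1 - m) + (k - m) - (T F0 - F0) = (F0 - m) + (F0 - m) := by
        have h2 : (F1 - m) + (k - m) - (T F0 - F0) = (F1 + k) - m - m - (T F0 - F0) := by abel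
        rw [h2, ← hsum]
        abel
      rw [h1]
      funext x y
      simp only [Pi.sub_apply, Pi.add_apply, Pi.smul_apply, smul_eq_mul]
      linear_combination -(F0 x y - m x y) * five0
    rw [h]
    exact Submodule.smul_mem _ _ (Submodule.sub_mem _ (Submodule.add_mem _ hFmW hkmW) hTF)
  · exact hF1W

end Pool.Agent.Helper46.TL
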